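import Mathlib

/-!
# Density bounds for minimal subgraphs of the integer lattice
-/

set_option autoImplicit false

namespace Pool.Agent.Results.MP_f12303_co.DensityBounds

open MeasureTheory

/-! ### A discrete isoperimetric inequality -/

section Iso

variable {n : ℕ}

open scoped ENNReal in
theorem iso (hn : 2 ≤ n) (A D : Finset (Fin n → ℤ))
    (hD : ∀ x ∈ A, ∀ i, ∃ t : ℤ, Function.update x i t ∈ D) : A.card ^ (n - 1) ≤ D.card ^ n := by
  classical
  let μ : Fin n → Measure ℤ := fun _ => Measure.count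
  have hcard : ∀ B : Finset (Fin n → ℤ), Measure.pi μ (B : Set (Fin n → ℤ)) = B.card := by
    intro B
    rw [← sum_measure_singleton]
    have : ∀ x ∈ B, Measure.pi μ {x} = 1 := by
      intro x _
      rw [Measure.pi_singleton]
      simp [μ]
    rw [Finset.sum_congr rfl this]
    simp
  have hn1 : (1 : ℝ) < n := by exact_mod_cast (by omega : 1 < n)
  set p : ℝ := n / (n - 1) with hp
  have hconj : Real.HolderConjugate (Fintype.card (Fin n) : ℝ) p := by
    rw [Fintype.card_fin]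
    exact Real.HolderConjugate.conjExponent hn1
  have key := lintegral_prod_lintegral_pow_le (μ := μ) (A := fun _ : Fin n => ℤ) hconj
    (f := Set.indicator (D : Set (Fin n → ℤ)) 1) (Measurable.of_discrete)
  have h1 : ∫⁻ x, Set.indicator (D : Set (Fin n → ℤ)) 1 x ∂Measure.pi μ = D.card := by
    rw [lintegral_indicator_one (MeasurableSet.of_discrete), hcard]
  have h2 : (A.card : ℝ≥0∞) ≤ ∫⁻ x, ∏ i, (∫⁻ xᵢ, (Set.indicator (D : Set (Fin n → ℤ)) 1)
      (Function.update x i xᵢ) ∂μ i) ^ ((1 : ℝ) / (Fintype.card (Fin n) - 1 : ℝ)) ∂Measure.pi μ := by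
    rw [← hcard A, ← lintegral_indicator_one (MeasurableSet.of_discrete)]
    apply lintegral_mono
    intro x
    by_cases hx : x ∈ (A : Set (Fin n → ℤ))
    · rw [Set.indicator_of_mem hx]
      simp only [Pi.one_apply]
      apply Finset.one_le_prod''
      intro i
      apply ENNReal.one_le_rpow
      · obtain ⟨t, ht⟩ := hD x hx i
        simp only [μ, lintegral_count]
        refine le_trans ?_ (ENNReal.le_tsum t)
        rw [Set.indicator_of_mem (by exact_mod_cast ht)]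
        rfl
      · rw [Fintype.card_fin]
        have : (0 : ℝ) < n - 1 := by linarith
        positivity
    · rw [Set.indicator_of_notMem hx]
      exact bot_le
  rw [h1] at key
  have h3 := h2.trans key
  have h4 : ((A.card : ℝ≥0∞)) ^ ((n : ℝ) - 1) ≤ ((D.card : ℝ≥0∞)) ^ (n : ℝ) := by
    have h5 : ((D.card : ℝ≥0∞)) ^ (n : ℝ) = (((D.card : ℝ≥0∞)) ^ p) ^ ((n : ℝ) - 1) := by
      rw [← ENNReal.rpow_mul]
      congr 1
      rw [hp]
      have : (n : ℝ) - 1 ≠ 0 := by linarith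
      field_simp
    rw [h5]
    exact ENNReal.rpow_le_rpow h3 (by linarith)
  have h6 : ((n : ℝ) - 1) = ((n - 1 : ℕ) : ℝ) := by
    rw [Nat.cast_sub (by omega)]; simp
  rw [h6, ENNReal.rpow_natCast, ENNReal.rpow_natCast] at h4
  exact_mod_cast h4

end Iso

/-! ### Definitions -/

variable {n : ℕ}

/-- Adjacency in `ℤⁿ`: Euclidean distance one. -/
def Adj (x y : Fin n → ℤ) : Prop := ∑ i, (x i - y i) ^ 2 = 1

/-- The vertex boundary `δΩ`. -/
def vertexBoundary (Ω : Set (Fin n → ℤ)) : Set (Fin n → ℤ) := {x | x ∈ Ω ∧ ∃ y, y ∉ Ω ∧ Adj x y}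

/-- The exterior vertex boundary `τΩ`. -/
def exteriorBoundary (Ω : Set (Fin n → ℤ)) : Set (Fin n → ℤ) := {z | z ∉ Ω ∧ ∃ w ∈ Ω, Adj z w}

/-- `Ω ∪ τΩ`. -/
def closureOf (Ω : Set (Fin n → ℤ)) : Set (Fin n → ℤ) := Ω ∪ exteriorBoundary Ω

/-- The edge boundary `∂Ω`: the edges with exactly one endpoint in `Ω`. -/
def edgeBoundary (Ω : Set (Fin n → ℤ)) : Set (Sym2 (Fin n → ℤ)) :=
  {e | ∃ x y, e = s(x, y) ∧ Adj x y ∧ x ∈ Ω ∧ y ∉ Ω}

/-- The edges `{x, y}` with `x ∈ Ω` and `y ∈ Ω ∪ τΩ`. -/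
def edgesOf (Ω : Set (Fin n → ℤ)) : Set (Sym2 (Fin n → ℤ)) :=
  {e | ∃ x y, e = s(x, y) ∧ Adj x y ∧ x ∈ Ω ∧ y ∈ closureOf Ω}

/-- `K ⊆ Ū` has least perimeter in `U`. -/
def LeastPerimeter (U K : Set (Fin n → ℤ)) : Prop :=
  ∀ K' : Set (Fin n → ℤ), K' ⊆ closureOf U →
    K' ∩ exteriorBoundary U = K ∩ exteriorBoundary U →
    (edgeBoundary K ∩ edgesOf U).ncard ≤ (edgeBoundary K' ∩ edgesOf U).ncard

/-- Minimal subgraphs of `ℤⁿ`. -/
def IsMinimal (M : Set (Fin n → ℤ)) : Prop :=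
  M.Nonempty ∧ M ≠ Set.univ ∧
    ∀ U : Set (Fin n → ℤ), U.Finite → LeastPerimeter U (M ∩ closureOf U)

/-- The integer points of the closed cube with centre `x` and half side `r`. -/
def box (x : Fin n → ℤ) (r : ℝ) : Set (Fin n → ℤ) := {y | ∀ i, |(y i : ℝ) - x i| ≤ r}

/-! ### Adjacency -/

theorem Adj.symm {x y : Fin n → ℤ} (h : Adj x y) : Adj y x := by
  unfold Adj at *
  rw [← h]
  refine Finset.sum_congr rfl fun i _ => ?_
  ring

/-- One step from `x`. -/
def step (x : Fin n → ℤ) (q : Fin n × Bool) : Fin n → ℤ :=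
  Function.update x q.1 (x q.1 + if q.2 then 1 else -1)

theorem adj_step (x : Fin n → ℤ) (q : Fin n × Bool) : Adj x (step x q) := by
  unfold Adj step
  rw [Finset.sum_eq_single q.1]
  · rw [Function.update_self]
    split_ifs <;> ring
  · intro i _ hi
    rw [Function.update_of_ne hi]; ring
  · intro h; exact absurd (Finset.mem_univ _) h

theorem exists_step {x y : Fin n → ℤ} (h : Adj x y) : ∃ q, y = step x q := by
  unfold Adj at h
  have h1 : ∃ i, x i - y i ≠ 0 := by
    by_contra hcon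
    push Not at hcon
    simp [hcon] at h
  obtain ⟨i, hi⟩ := h1
  have h2 : (x i - y i) ^ 2 + ∑ j ∈ Finset.univ.erase i, (x j - y j) ^ 2 = 1 := by
    rw [Finset.add_sum_erase Finset.univ (fun j => (x j - y j) ^ 2) (Finset.mem_univ i)]; exact h
  have h3 : 0 < (x i - y i) ^ 2 := by positivity
  have h4 : 0 ≤ ∑ j ∈ Finset.univ.erase i, (x j - y j) ^ 2 := Finset.sum_nonneg fun _ _ => by positivity
  have h5 : (x i - y i) ^ 2 = 1 := by omega
  have h6 : ∑ j ∈ Finset.univ.erase i, (x j - y j) ^ 2 = 0 := by omega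
  rw [Finset.sum_eq_zero_iff_of_nonneg (fun _ _ => by positivity)] at h6
  have h7 : ∀ j, j ≠ i → y j = x j := by
    intro j hj
    have := h6 j (Finset.mem_erase.2 ⟨hj, Finset.mem_univ _⟩)
    have := pow_eq_zero_iff (two_ne_zero) |>.1 this
    omega
  have h8 : (x i - y i - 1) * (x i - y i + 1) = 0 := by linear_combination h5
  rcases mul_eq_zero.1 h8 with h9 | h9
  · refine ⟨(i, false), ?_⟩
    funext j
    by_cases hj : j = i
    · subst hj
      simp only [step, Function.update_self]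
      simp
      omega
    · simp only [step]
      rw [Function.update_of_ne hj]; exact h7 j hj
  · refine ⟨(i, true), ?_⟩
    funext j
    by_cases hj : j = i
    · subst hj
      simp only [step, Function.update_self]
      simp
      omega
    · simp only [step]
      rw [Function.update_of_ne hj]; exact h7 j hj

/-! ### The directed edges -/

/-- The adjacent pairs with at least one entry in `U`. -/
def pairs (U : Set (Fin n → ℤ)) : Set ((Fin n → ℤ) × (Fin n → ℤ)) :=
  {p | Adj p.1 p.2 ∧ (p.1 ∈ U ∨ p.2 ∈ U)}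

theorem pairs_finite {U : Set (Fin n → ℤ)} (hU : U.Finite) : (pairs U).Finite := by
  have h1 : ((fun q : (Fin n → ℤ) × (Fin n × Bool) => (q.1, step q.1 q.2)) '' (U ×ˢ Set.univ)).Finite :=
    (hU.prod Set.finite_univ).image _
  have h2 : ((fun q : (Fin n → ℤ) × (Fin n × Bool) => (step q.1 q.2, q.1)) '' (U ×ˢ Set.univ)).Finite :=
    (hU.prod Set.finite_univ).image _
  refine (h1.union h2).subset ?_
  rintro ⟨x, y⟩ ⟨hadj, hx | hy⟩
  · left
    obtain ⟨q, hq⟩ := exists_step hadj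
    exact ⟨(x, q), ⟨hx, Set.mem_univ _⟩, Prod.ext rfl hq.symm⟩
  · right
    obtain ⟨q, hq⟩ := exists_step hadj.symm
    exact ⟨(y, q), ⟨hy, Set.mem_univ _⟩, Prod.ext hq.symm rfl⟩

/-- The directed version of the cut edges. -/
def cut (U K : Set (Fin n → ℤ)) : Set ((Fin n → ℤ) × (Fin n → ℤ)) :=
  {p | p.1 ∈ K ∧ p.2 ∉ K ∧ Adj p.1 p.2 ∧ (p.1 ∈ U ∨ p.2 ∈ U)}

theorem mem_closureOf {U : Set (Fin n → ℤ)} {x y : Fin n → ℤ} (h : Adj x y) (hx : x ∈ U) :
    y ∈ closureOf U := by
  by_cases hy : y ∈ U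
  · exact Or.inl hy
  · exact Or.inr ⟨hy, x, hx, h.symm⟩

theorem ncard_cut (U K : Set (Fin n → ℤ)) :
    (edgeBoundary K ∩ edgesOf U).ncard = (cut U K).ncard := by
  have himg : edgeBoundary K ∩ edgesOf U =
      (fun p : (Fin n → ℤ) × (Fin n → ℤ) => s(p.1, p.2)) '' cut U K := by
    ext e
    constructor
    · rintro ⟨⟨x, y, rfl, hadj, hx, hy⟩, x', y', he, hadj', hx', hy'⟩
      refine ⟨(x, y), ⟨hx, hy, hadj, ?_⟩, rfl⟩
      rcases Sym2.eq_iff.1 he with ⟨rfl, rfl⟩ | ⟨rfl, rfl⟩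
      · exact Or.inl hx'
      · exact Or.inr hx'
    · rintro ⟨⟨x, y⟩, ⟨hx, hy, hadj, hor⟩, rfl⟩
      refine ⟨⟨x, y, rfl, hadj, hx, hy⟩, ?_⟩
      rcases hor with h | h
      · exact ⟨x, y, rfl, hadj, h, mem_closureOf hadj h⟩
      · exact ⟨y, x, Sym2.eq_swap, hadj.symm, h, mem_closureOf hadj.symm h⟩
  rw [himg]
  apply Set.InjOn.ncard_image
  rintro ⟨x, y⟩ hp ⟨x', y'⟩ hp' he
  rcases Sym2.eq_iff.1 he with ⟨h1, h2⟩ | ⟨h1, h2⟩
  · simp only at h1 h2; rw [h1, h2]
  · simp only at h1 h2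
    exfalso
    apply hp'.2.1
    simp only
    rw [← h1]
    exact hp.1

theorem edge_compl (U K : Set (Fin n → ℤ)) (hK : K ⊆ closureOf U) :
    edgeBoundary (closureOf U \ K) ∩ edgesOf U = edgeBoundary K ∩ edgesOf U := by
  ext e
  constructor
  · rintro ⟨⟨x, y, rfl, hadj, hx, hy⟩, x', y', he, hadj', hx', hy'⟩
    have hyc : y ∈ closureOf U := by
      rcases Sym2.eq_iff.1 he with ⟨rfl, rfl⟩ | ⟨rfl, rfl⟩
      · exact hy'
      · exact Or.inl hx'
    have hyK : y ∈ K := by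
      by_contra h
      exact hy ⟨hyc, h⟩
    exact ⟨⟨y, x, Sym2.eq_swap, hadj.symm, hyK, hx.2⟩, x', y', he, hadj', hx', hy'⟩
  · rintro ⟨⟨x, y, rfl, hadj, hx, hy⟩, x', y', he, hadj', hx', hy'⟩
    have hyc : y ∈ closureOf U := by
      rcases Sym2.eq_iff.1 he with ⟨rfl, rfl⟩ | ⟨rfl, rfl⟩
      · exact hy'
      · exact Or.inl hx'
    exact ⟨⟨y, x, Sym2.eq_swap, hadj.symm, ⟨hyc, hy⟩, fun h => h.2 hx⟩, x', y', he, hadj', hx', hy'⟩

theorem IsMinimal.compl {M : Set (Fin n → ℤ)} (h : IsMinimal M) : IsMinimal Mᶜ := by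
  refine ⟨Set.nonempty_compl.2 h.2.1, ?_, ?_⟩
  · intro hcon
    have := Set.compl_univ_iff.1 hcon
    exact h.1.ne_empty this
  · intro U hU K' hK' hb
    have h1 := h.2.2 U hU (closureOf U \ K') Set.sdiff_subset ?_
    · rw [edge_compl U K' hK'] at h1
      have h2 := edge_compl U (M ∩ closureOf U) Set.inter_subset_right
      have h3 : closureOf U \ (M ∩ closureOf U) = Mᶜ ∩ closureOf U := by
        ext z; simp only [Set.mem_sdiff, Set.mem_inter_iff, Set.mem_compl_iff]; tauto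
      rw [h3] at h2
      rw [h2]
      exact h1
    · ext z
      have hz := Set.ext_iff.1 hb z
      simp only [Set.mem_inter_iff, Set.mem_compl_iff, Set.mem_sdiff] at hz ⊢
      have hzc : z ∈ exteriorBoundary U → z ∈ closureOf U := fun h => Or.inr h
      tauto

/-- The cutting inequality: the edges leaving `M` from `M ∩ U` are at most as many as the edges
between `M ∩ U` and `M \ U`. -/
theorem IsMinimal.cut_le {M : Set (Fin n → ℤ)} (h : IsMinimal M) {U : Set (Fin n → ℤ)} (hU : U.Finite) :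
    {p : (Fin n → ℤ) × (Fin n → ℤ) | p.1 ∈ M ∧ p.1 ∈ U ∧ p.2 ∉ M ∧ Adj p.1 p.2}.ncard ≤
    {p : (Fin n → ℤ) × (Fin n → ℤ) | p.1 ∈ M ∧ p.1 ∉ U ∧ p.2 ∈ M ∧ p.2 ∈ U ∧ Adj p.1 p.2}.ncard := by
  have h1 := h.2.2 U hU (M ∩ exteriorBoundary U) (fun z hz => Or.inr hz.2) (by
    ext z
    have hzc : z ∈ exteriorBoundary U → z ∈ closureOf U := fun h => Or.inr h
    simp only [Set.mem_inter_iff]
    tauto)
  rw [ncard_cut, ncard_cut] at h1
  set C1 := {p : (Fin n → ℤ) × (Fin n → ℤ) | p.1 ∈ M ∧ p.1 ∈ U ∧ p.2 ∉ M ∧ Adj p.1 p.2} with hC1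
  set C3 := {p : (Fin n → ℤ) × (Fin n → ℤ) | p.1 ∈ M ∧ p.1 ∉ U ∧ p.2 ∈ M ∧ p.2 ∈ U ∧ Adj p.1 p.2} with hC3
  set C2 := {p : (Fin n → ℤ) × (Fin n → ℤ) | p.1 ∈ M ∧ p.1 ∉ U ∧ p.2 ∉ M ∧ p.2 ∈ U ∧ Adj p.1 p.2} with hC2
  have hf := pairs_finite hU
  have f1 : C1.Finite := hf.subset fun p hp => ⟨hp.2.2.2, Or.inl hp.2.1⟩
  have f2 : C2.Finite := hf.subset fun p hp => ⟨hp.2.2.2.2, Or.inr hp.2.2.2.1⟩
  have f3 : C3.Finite := hf.subset fun p hp => ⟨hp.2.2.2.2, Or.inr hp.2.2.2.1⟩
  have s1 : C1 ∪ C2 ⊆ cut U (M ∩ closureOf U) := by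
    rintro ⟨x, y⟩ (⟨a, b, c, d⟩ | ⟨a, b, c, d, e⟩)
    · exact ⟨⟨a, Or.inl b⟩, fun h => c h.1, d, Or.inl b⟩
    · exact ⟨⟨a, mem_closureOf e.symm d⟩, fun h => c h.1, e, Or.inr d⟩
  have s2 : cut U (M ∩ exteriorBoundary U) ⊆ C2 ∪ C3 := by
    rintro ⟨x, y⟩ ⟨⟨a, b⟩, c, d, e⟩
    have hxU : x ∉ U := b.1
    have hyU : y ∈ U := e.resolve_left hxU
    by_cases hy : y ∈ M
    · exact Or.inr ⟨a, hxU, hy, hyU, d⟩
    · exact Or.inl ⟨a, hxU, hy, hyU, d⟩
  have hdis : Disjoint C1 C2 := by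
    rw [Set.disjoint_left]
    intro p hp hp'
    exact hp'.2.1 hp.2.1
  have n1 : C1.ncard + C2.ncard ≤ (cut U (M ∩ closureOf U)).ncard := by
    rw [← Set.ncard_union_eq hdis f1 f2]
    exact Set.ncard_le_ncard s1 (hf.subset fun p hp => ⟨hp.2.2.1, hp.2.2.2⟩)
  have n2 : (cut U (M ∩ exteriorBoundary U)).ncard ≤ C2.ncard + C3.ncard :=
    (Set.ncard_le_ncard s2 (f2.union f3)).trans (Set.ncard_union_le _ _)
  omega

/-! ### Volume growth -/

/-- The integer cube. -/
noncomputable def ibox (x : Fin n → ℤ) (R : ℕ) : Finset (Fin n → ℤ) :=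
  Fintype.piFinset fun i => Finset.Icc (x i - R) (x i + R)

theorem mem_ibox {x y : Fin n → ℤ} {R : ℕ} :
    y ∈ ibox x R ↔ ∀ i, x i - R ≤ y i ∧ y i ≤ x i + R := by simp [ibox]

open Classical in
/-- The part of `M` in the integer cube. -/
noncomputable def trace (M : Set (Fin n → ℤ)) (x : Fin n → ℤ) (R : ℕ) : Finset (Fin n → ℤ) :=
  (ibox x R).filter (· ∈ M)

theorem mem_trace {M : Set (Fin n → ℤ)} {x y : Fin n → ℤ} {R : ℕ} :
    y ∈ trace M x R ↔ y ∈ ibox x R ∧ y ∈ M := by simp [trace]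

theorem ibox_mono (x : Fin n → ℤ) {R S : ℕ} (h : R ≤ S) : ibox x R ⊆ ibox x S := by
  intro y hy
  rw [mem_ibox] at *
  intro i
  have := hy i
  have h' : (R : ℤ) ≤ S := by exact_mod_cast h
  constructor <;> omega

theorem trace_mono (M : Set (Fin n → ℤ)) (x : Fin n → ℤ) {R S : ℕ} (h : R ≤ S) :
    trace M x R ⊆ trace M x S := by
  intro y hy
  rw [mem_trace] at *
  exact ⟨ibox_mono x h hy.1, hy.2⟩

theorem step_mem_ibox {x y : Fin n → ℤ} {R : ℕ} (q : Fin n × Bool) (h : y ∈ ibox x R) :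
    step y q ∈ ibox x (R + 1) := by
  rw [mem_ibox] at *
  intro i
  have h1 := h i
  push_cast
  unfold step
  by_cases hi : i = q.1
  · subst hi
    rw [Function.update_self]
    split_ifs <;> constructor <;> omega
  · rw [Function.update_of_ne hi]
    constructor <;> omega

theorem trace_growth (hn : 2 ≤ n) {M : Set (Fin n → ℤ)} (h : IsMinimal M) (x : Fin n → ℤ) (R : ℕ) :
    ∃ D : ℕ, (trace M x R).card ^ (n - 1) ≤ D ^ n ∧
      D + 4 * n * (trace M x R).card ≤ 4 * n * (trace M x (R + 1)).card := by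
  classical
  set A := trace M x R with hA
  set D : Finset (Fin n → ℤ) := A.filter (fun p => ∃ i, Function.update p i (p i + 1) ∉ A) with hD
  refine ⟨D.card, ?_, ?_⟩
  · apply iso hn
    intro y hy i
    set T := (Finset.Icc (x i - R) (x i + R)).filter (fun t => Function.update y i t ∈ A) with hT
    have hyT : y i ∈ T := by
      rw [hT, Finset.mem_filter, Finset.mem_Icc, Function.update_eq_self]
      exact ⟨mem_ibox.1 (mem_trace.1 hy).1 i, hy⟩
    have hmax := Finset.max'_mem T ⟨_, hyT⟩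
    set t := T.max' ⟨_, hyT⟩ with ht
    refine ⟨t, ?_⟩
    rw [hD, Finset.mem_filter]
    refine ⟨(Finset.mem_filter.1 hmax).2, i, ?_⟩
    rw [Function.update_self, Function.update_idem]
    intro hcon
    have h1 : t + 1 ∈ T := by
      rw [hT, Finset.mem_filter, Finset.mem_Icc]
      refine ⟨?_, hcon⟩
      have := mem_ibox.1 (mem_trace.1 hcon).1 i
      rwa [Function.update_self] at this
    have h2 := Finset.le_max' T _ h1
    omega
  · set U : Set (Fin n → ℤ) := (ibox x R : Set (Fin n → ℤ)) with hU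
    have hUf : U.Finite := Finset.finite_toSet _
    have hcut := h.cut_le hUf
    set C1 := {p : (Fin n → ℤ) × (Fin n → ℤ) | p.1 ∈ M ∧ p.1 ∈ U ∧ p.2 ∉ M ∧ Adj p.1 p.2} with hC1
    set C3 := {p : (Fin n → ℤ) × (Fin n → ℤ) | p.1 ∈ M ∧ p.1 ∉ U ∧ p.2 ∈ M ∧ p.2 ∈ U ∧ Adj p.1 p.2}
      with hC3
    have hf := pairs_finite hUf
    have f1 : C1.Finite := hf.subset fun p hp => ⟨hp.2.2.2, Or.inl hp.2.1⟩
    have f3 : C3.Finite := hf.subset fun p hp => ⟨hp.2.2.2.2, Or.inr hp.2.2.2.1⟩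
    have s1 : (D : Set (Fin n → ℤ)) ⊆ Prod.fst '' (C1 ∪ Prod.swap '' C3) := by
      intro p hp
      rw [Finset.mem_coe, hD, Finset.mem_filter] at hp
      obtain ⟨hpA, i, hi⟩ := hp
      have hp1 := mem_trace.1 hpA
      have hadj : Adj p (Function.update p i (p i + 1)) := by
        have := adj_step p (i, true)
        simpa [step] using this
      by_cases hq : Function.update p i (p i + 1) ∈ M
      · refine ⟨(p, Function.update p i (p i + 1)), Or.inr ?_, rfl⟩
        refine ⟨(Function.update p i (p i + 1), p), ⟨hq, ?_, hp1.2, hp1.1, hadj.symm⟩, rfl⟩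
        intro hcon
        exact hi (mem_trace.2 ⟨hcon, hq⟩)
      · exact ⟨(p, Function.update p i (p i + 1)), Or.inl ⟨hp1.2, hp1.1, hq, hadj⟩, rfl⟩
    have n1 : D.card ≤ C1.ncard + C3.ncard := by
      rw [← Set.ncard_coe_finset]
      refine (Set.ncard_le_ncard s1 ((f1.union (f3.image _)).image _)).trans ?_
      refine (Set.ncard_image_le (f1.union (f3.image _))).trans ?_
      refine (Set.ncard_union_le _ _).trans ?_
      have := Set.ncard_image_le f3 (f := Prod.swap)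
      omega
    have n2 : C3.ncard ≤ 2 * n * ((trace M x (R + 1)).card - A.card) := by
      have s2 : C3 ⊆ (fun q : (Fin n → ℤ) × (Fin n × Bool) => (q.1, step q.1 q.2)) ''
          (((trace M x (R + 1) \ A) ×ˢ (Finset.univ : Finset (Fin n × Bool)) : Finset _) :
            Set ((Fin n → ℤ) × (Fin n × Bool))) := by
        rintro ⟨p, q⟩ ⟨a, b, c, d, e⟩
        simp only at a b c d e
        obtain ⟨s, hs⟩ := exists_step e
        refine ⟨(p, s), ?_, Prod.ext rfl hs.symm⟩
        rw [Finset.mem_coe, Finset.mem_product]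
        refine ⟨?_, Finset.mem_univ _⟩
        rw [Finset.mem_sdiff]
        refine ⟨mem_trace.2 ⟨?_, a⟩, fun hcon => b (mem_trace.1 hcon).1⟩
        obtain ⟨s', hs'⟩ := exists_step e.symm
        rw [hs']
        exact step_mem_ibox _ d
      refine (Set.ncard_le_ncard s2 (Set.toFinite _)).trans ?_
      refine (Set.ncard_image_le (Set.toFinite _)).trans ?_
      rw [Set.ncard_coe_finset, Finset.card_product, Finset.card_sdiff_of_subset (trace_mono M x (Nat.le_succ R)),
        Finset.card_univ, Fintype.card_prod, Fintype.card_fin, Fintype.card_bool]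
      apply le_of_eq; ring
    have n3 : A.card ≤ (trace M x (R + 1)).card := Finset.card_le_card (trace_mono M x (Nat.le_succ R))
    have n4 : D.card ≤ 4 * n * ((trace M x (R + 1)).card - A.card) := by
      calc D.card ≤ 2 * C3.ncard := by omega
        _ ≤ 2 * (2 * n * ((trace M x (R + 1)).card - A.card)) := Nat.mul_le_mul_left _ n2
        _ = _ := by ring
    calc D.card + 4 * n * A.card ≤ 4 * n * ((trace M x (R + 1)).card - A.card) + 4 * n * A.card := by
          omega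
      _ = 4 * n * (trace M x (R + 1)).card := by rw [← Nat.mul_add, Nat.sub_add_cancel n3]

/-- The growth constant. -/
noncomputable def gc (n : ℕ) : ℝ := 1 / (n ^ 2 * 2 ^ (n + 1))

theorem gc_pos (hn : 2 ≤ n) : 0 < gc n := by
  unfold gc
  have : (0 : ℝ) < n := by exact_mod_cast (by omega : 0 < n)
  positivity

theorem gc_le_one (hn : 2 ≤ n) : gc n ≤ 1 := by
  unfold gc
  have h1 : (1 : ℝ) ≤ n := by exact_mod_cast (by omega : 1 ≤ n)
  have h2 : (1 : ℝ) ≤ 2 ^ (n + 1) := one_le_pow₀ (by norm_num)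
  have h3 : (1 : ℝ) ≤ (n : ℝ) ^ 2 := one_le_pow₀ h1
  rw [div_le_one (by positivity)]
  nlinarith

theorem pow_step (hn : 2 ≤ n) {W : ℝ} (hW : 1 ≤ W) :
    (W + gc n) ^ n ≤ W ^ n + W ^ (n - 1) / (4 * n) := by
  set a := gc n with ha
  have ha0 := gc_pos hn
  have ha1 := gc_le_one hn
  rw [← ha] at ha0 ha1
  have hx : 0 < W + a := by linarith
  have hn0 : (0 : ℝ) < n := by exact_mod_cast (by omega : 0 < n)
  have h1 : 1 + (n : ℝ) * (-(a / (W + a))) ≤ (1 + (-(a / (W + a)))) ^ n := by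
    apply one_add_mul_le_pow
    have : a / (W + a) ≤ 1 := by rw [div_le_one hx]; linarith
    linarith
  have h2 : 1 + (-(a / (W + a))) = W / (W + a) := by field_simp; ring
  rw [h2, div_pow] at h1
  have h3 : (W + a) ^ n * (1 + (n : ℝ) * (-(a / (W + a)))) ≤ W ^ n := by
    have := mul_le_mul_of_nonneg_left h1 (by positivity : 0 ≤ (W + a) ^ n)
    rwa [mul_div_cancel₀] at this
    positivity
  obtain ⟨m, rfl⟩ : ∃ m, n = m + 1 := ⟨n - 1, by omega⟩
  have h4 : (W + a) ^ (m + 1) * (1 + ((m + 1 : ℕ) : ℝ) * (-(a / (W + a)))) =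
      (W + a) ^ (m + 1) - ((m + 1 : ℕ) : ℝ) * a * (W + a) ^ m := by
    rw [pow_succ]; field_simp; ring
  rw [h4] at h3
  have h5 : (W + a) ^ m ≤ (2 * W) ^ m := pow_le_pow_left₀ hx.le (by linarith) m
  have h6 : ((m + 1 : ℕ) : ℝ) * a * (2 * W) ^ m ≤ W ^ m / (4 * ((m + 1 : ℕ) : ℝ)) := by
    rw [ha, gc, mul_pow]
    have hm0 : ((m + 1 : ℕ) : ℝ) ≠ 0 := hn0.ne'
    apply le_of_eq
    rw [show m + 1 + 1 = m + 2 from rfl, pow_add 2 m 2]
    field_simp
    norm_num
  have h7 : ((m + 1 : ℕ) : ℝ) * a * (W + a) ^ m ≤ ((m + 1 : ℕ) : ℝ) * a * (2 * W) ^ m := by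
    gcongr
  rw [Nat.add_sub_cancel]
  linarith

theorem volume (hn : 2 ≤ n) {M : Set (Fin n → ℤ)} (h : IsMinimal M) {x : Fin n → ℤ} (hx : x ∈ M) (R : ℕ) :
    (1 + gc n * R) ^ n ≤ ((trace M x R).card : ℝ) := by
  have hn0 : (0 : ℝ) < n := by exact_mod_cast (by omega : 0 < n)
  induction R with
  | zero =>
    have : x ∈ trace M x 0 := mem_trace.2 ⟨mem_ibox.2 fun i => by simp, hx⟩
    have h1 : 1 ≤ (trace M x 0).card := Finset.card_pos.2 ⟨x, this⟩
    simp only [Nat.cast_zero, mul_zero, add_zero, one_pow]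
    exact_mod_cast h1
  | succ R ih =>
    obtain ⟨D, hD1, hD2⟩ := trace_growth hn h x R
    set W := 1 + gc n * R with hW
    have hW1 : 1 ≤ W := by
      have := (gc_pos hn).le
      have : 0 ≤ gc n * R := by positivity
      linarith
    have h1 : W ^ (n - 1) ≤ D := by
      have h2 : (W ^ (n - 1)) ^ n ≤ (D : ℝ) ^ n := by
        calc (W ^ (n - 1)) ^ n = (W ^ n) ^ (n - 1) := by rw [← pow_mul, ← pow_mul, mul_comm]
          _ ≤ ((trace M x R).card : ℝ) ^ (n - 1) := pow_le_pow_left₀ (by positivity) ih _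
          _ ≤ (D : ℝ) ^ n := by exact_mod_cast hD1
      exact le_of_pow_le_pow_left₀ (by omega) (by positivity) h2
    have h3 : (D : ℝ) + 4 * n * (trace M x R).card ≤ 4 * n * (trace M x (R + 1)).card := by
      exact_mod_cast hD2
    have h4 : 1 + gc n * ((R + 1 : ℕ) : ℝ) = W + gc n := by rw [hW]; push_cast; ring
    rw [h4]
    refine (pow_step hn hW1).trans ?_
    have h5 : ((trace M x R).card : ℝ) + D / (4 * n) ≤ (trace M x (R + 1)).card := by
      rw [← sub_nonneg]
      have : ((trace M x (R + 1)).card : ℝ) - (((trace M x R).card : ℝ) + D / (4 * n)) =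
        (4 * n * (trace M x (R + 1)).card - (D + 4 * n * (trace M x R).card)) / (4 * n) := by
        field_simp
        ring
      rw [this]
      apply div_nonneg _ (by positivity)
      linarith
    have h6 : W ^ (n - 1) / (4 * n) ≤ (D : ℝ) / (4 * n) := by gcongr
    linarith

/-! ### The relative isoperimetric inequality in a cube -/

/-- The point with the coordinates of `b` below `k` and those of `a` from `k` on. -/
def hyb (a b : Fin n → ℤ) (k : ℕ) : Fin n → ℤ := fun i => if i.val < k then b i else a i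

theorem hyb_zero (a b : Fin n → ℤ) : hyb a b 0 = a := by
  funext i; simp [hyb]

theorem hyb_n (a b : Fin n → ℤ) : hyb a b n = b := by
  funext i; simp [hyb]

theorem hyb_succ (a b : Fin n → ℤ) (k : Fin n) :
    hyb a b (k + 1) = Function.update (hyb a b k) k (b k) := by
  funext i
  by_cases hi : i = k
  · subst hi
    rw [Function.update_self]; simp [hyb]
  · rw [Function.update_of_ne hi]
    have : i.val ≠ k.val := fun h => hi (Fin.ext h)
    simp only [hyb]
    by_cases h : i.val < k.val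
    · rw [if_pos h, if_pos (by omega)]
    · rw [if_neg h, if_neg (by omega)]

theorem hyb_mem {a b x : Fin n → ℤ} {R : ℕ} (ha : a ∈ ibox x R) (hb : b ∈ ibox x R) (k : ℕ) :
    hyb a b k ∈ ibox x R := by
  rw [mem_ibox] at *
  intro i
  simp only [hyb]
  split_ifs
  · exact hb i
  · exact ha i

theorem hyb_cross {M : Set (Fin n → ℤ)} {a b : Fin n → ℤ} (ha : a ∈ M) (hb : b ∉ M) :
    ∃ k : Fin n, hyb a b k ∈ M ∧ hyb a b (k + 1) ∉ M := by
  by_contra hcon
  push Not at hcon
  have h1 : ∀ k, k ≤ n → hyb a b k ∈ M := by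
    intro k
    induction k with
    | zero => intro _; rw [hyb_zero]; exact ha
    | succ k ih =>
      intro hk
      exact hcon ⟨k, by omega⟩ (ih (by omega))
  have := h1 n le_rfl
  rw [hyb_n] at this
  exact hb this

theorem line {M : Set (Fin n → ℤ)} {x y : Fin n → ℤ} {R : ℕ} {i : Fin n} {s : ℤ} (hy : y ∈ ibox x R)
    (hyM : y ∈ M) (hs : x i - R ≤ s ∧ s ≤ x i + R) (hsM : Function.update y i s ∉ M) :
    ∃ t, (x i - R ≤ t ∧ t ≤ x i + R) ∧ Function.update y i t ∈ vertexBoundary M := by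
  by_contra hcon
  push Not at hcon
  have hyi := mem_ibox.1 hy i
  have hup : ∀ t, x i - R ≤ t → t ≤ x i + R → Function.update y i t ∈ M →
      Function.update y i (t + 1) ∈ M ∧ Function.update y i (t - 1) ∈ M := by
    intro t h1 h2 h3
    have h4 := hcon t ⟨h1, h2⟩
    constructor
    · by_contra h5
      apply h4
      refine ⟨h3, _, h5, ?_⟩
      have := adj_step (Function.update y i t) (i, true)
      simpa [step] using this
    · by_contra h5
      apply h4
      refine ⟨h3, _, h5, ?_⟩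
      have := adj_step (Function.update y i t) (i, false)
      simpa [step, sub_eq_add_neg] using this
  have hA : ∀ m : ℕ, y i + m ≤ x i + R → Function.update y i (y i + m) ∈ M := by
    intro m
    induction m with
    | zero => intro _; simpa using hyM
    | succ m ih =>
      intro hm
      push_cast at hm ⊢
      have := (hup (y i + m) (by omega) (by omega) (ih (by omega))).1
      rwa [add_assoc] at this
  have hB : ∀ m : ℕ, x i - R ≤ y i - m → Function.update y i (y i - m) ∈ M := by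
    intro m
    induction m with
    | zero => intro _; simpa using hyM
    | succ m ih =>
      intro hm
      push_cast at hm ⊢
      have := (hup (y i - m) (by omega) (by omega) (ih (by omega))).2
      rwa [sub_sub] at this
  apply hsM
  rcases le_total (y i) s with h | h
  · have := hA (s - y i).toNat (by omega)
    rwa [show y i + ((s - y i).toNat : ℤ) = s by omega] at this
  · have := hB (y i - s).toNat (by omega)
    rwa [show y i - ((y i - s).toNat : ℤ) = s by omega] at this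

theorem card_ibox (x : Fin n → ℤ) (R : ℕ) : (ibox x R).card = (2 * R + 1) ^ n := by
  rw [ibox, Fintype.card_piFinset]
  have : ∀ i : Fin n, (Finset.Icc (x i - R) (x i + R)).card = 2 * R + 1 := by
    intro i
    rw [Int.card_Icc]; omega
  simp [this]

theorem relative (hn : 2 ≤ n) (M : Set (Fin n → ℤ)) (x : Fin n → ℤ) (R : ℕ) :
    (trace M x R).card * (trace Mᶜ x R).card ≤
      n * (trace (vertexBoundary M) x R).card * (2 * R + 1) ^ (n + 1) := by
  classical
  have hex : ∀ q : (Fin n → ℤ) × (Fin n → ℤ), q ∈ trace M x R ×ˢ trace Mᶜ x R →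
      ∃ (k : Fin n) (p : Fin n → ℤ), p ∈ trace (vertexBoundary M) x R ∧
        hyb q.1 q.2 k = Function.update p k (q.1 k) := by
    rintro ⟨a, b⟩ hq
    rw [Finset.mem_product, mem_trace, mem_trace] at hq
    obtain ⟨⟨ha, haM⟩, hb, hbM⟩ := hq
    obtain ⟨k, hk1, hk2⟩ := hyb_cross haM hbM
    rw [hyb_succ] at hk2
    obtain ⟨t, ht, htM⟩ := line (hyb_mem ha hb k) hk1 (mem_ibox.1 hb k) hk2
    refine ⟨k, _, mem_trace.2 ⟨?_, htM⟩, ?_⟩
    · rw [mem_ibox]
      intro i
      by_cases hi : i = k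
      · subst hi; rw [Function.update_self]; exact ht
      · rw [Function.update_of_ne hi]; exact mem_ibox.1 (hyb_mem ha hb k) i
    · rw [Function.update_idem]
      change hyb a b k = Function.update (hyb a b k) k (a k)
      have : a k = hyb a b k k := by simp [hyb]
      rw [this, Function.update_eq_self]
  have hne : Nonempty (Fin n) := ⟨⟨0, by omega⟩⟩
  choose! kf pf hp1 hp2 using hex
  rw [← Finset.card_product]
  have hle : (trace M x R ×ˢ trace Mᶜ x R).card ≤
      ((Finset.univ : Finset (Fin n)) ×ˢ (trace (vertexBoundary M) x R ×ˢ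
        (ibox x R ×ˢ Finset.Icc (-(R : ℤ)) R))).card := by
    apply Finset.card_le_card_of_injOn
      (fun q => (kf q, pf q, hyb q.2 q.1 (kf q), q.1 (kf q) - x (kf q)))
    · intro q hq
      have hq' := hq
      rw [Finset.mem_coe, Finset.mem_product, mem_trace, mem_trace] at hq'
      rw [Finset.mem_coe, Finset.mem_product, Finset.mem_product, Finset.mem_product]
      refine ⟨Finset.mem_univ _, hp1 q hq, hyb_mem hq'.2.1 hq'.1.1 _, ?_⟩
      have := mem_ibox.1 hq'.1.1 (kf q)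
      rw [Finset.mem_Icc]
      simp only
      constructor <;> omega
    · intro q hq q' hq' he
      simp only [Prod.mk.injEq] at he
      obtain ⟨e1, e2, e3, e4⟩ := he
      have g1 := hp2 q hq
      have g2 := hp2 q' hq'
      rw [← e1] at e3 e4 g2
      have e5 : q.1 (kf q) = q'.1 (kf q) := by omega
      rw [← e2, ← e5, ← g1] at g2
      have g3 : ∀ i, q.1 i = q'.1 i ∧ q.2 i = q'.2 i := by
        intro i
        have c1 := congrFun g2 i
        have c2 := congrFun e3 i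
        simp only [hyb] at c1 c2
        by_cases hi : i.val < (kf q).val
        · rw [if_pos hi, if_pos hi] at c1 c2
          exact ⟨c2, c1.symm⟩
        · rw [if_neg hi, if_neg hi] at c1 c2
          exact ⟨c1.symm, c2⟩
      exact Prod.ext (funext fun i => (g3 i).1) (funext fun i => (g3 i).2)
  refine hle.trans ?_
  rw [Finset.card_product, Finset.card_product, Finset.card_product, card_ibox, Finset.card_univ,
    Fintype.card_fin, Int.card_Icc]
  have : ((R : ℤ) + 1 - -(R : ℤ)).toNat = 2 * R + 1 := by omega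
  rw [this, pow_succ]
  apply le_of_eq; ring

/-! ### The result -/

theorem box_eq (x : Fin n → ℤ) {r : ℝ} (hr : 0 ≤ r) : box x r = (ibox x ⌊r⌋₊ : Set (Fin n → ℤ)) := by
  ext y
  rw [Finset.mem_coe, mem_ibox]
  change (∀ i, |(y i : ℝ) - x i| ≤ r) ↔ _
  refine forall_congr' fun i => ?_
  have h1 : |(y i : ℝ) - x i| = ((|y i - x i| : ℤ) : ℝ) := by push_cast; rfl
  have h2 : |(y i : ℝ) - x i| ≤ r ↔ |y i - x i| ≤ (⌊r⌋₊ : ℤ) := by
    rw [h1, Int.natCast_floor_eq_floor hr, Int.le_floor]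
  rw [h2, abs_le]
  constructor
  · rintro ⟨h3, h4⟩; constructor <;> omega
  · rintro ⟨h3, h4⟩; constructor <;> omega

theorem inter_box (M : Set (Fin n → ℤ)) (x : Fin n → ℤ) {r : ℝ} (hr : 0 ≤ r) :
    (M ∩ box x r).ncard = (trace M x ⌊r⌋₊).card := by
  rw [← Set.ncard_coe_finset]
  congr 1
  ext y
  rw [Set.mem_inter_iff, box_eq x hr, Finset.mem_coe, Finset.mem_coe, mem_trace]
  tauto

/-- Every minimal subgraph `M` of `ℤⁿ` satisfies `|M ∩ B_r(x)| ≥ c₂ rⁿ` and
`|δM ∩ B_r(x)| ≥ c₄ rⁿ⁻¹` for every `x ∈ M` and all large `r`. -/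
theorem result (n : ℕ) (hn : 2 ≤ n) : ∃ c₂ : ℝ, 0 < c₂ ∧ ∃ c₄ : ℝ, 0 < c₄ ∧
    ∀ M : Set (Fin n → ℤ), IsMinimal M → ∀ x ∈ M, ∃ r₀ : ℝ, ∀ r : ℝ, r₀ ≤ r →
      c₂ * r ^ n ≤ ((M ∩ box x r).ncard : ℝ) ∧
      c₄ * r ^ (n - 1) ≤ ((vertexBoundary M ∩ box x r).ncard : ℝ) := by
  have ha := gc_pos hn
  set a := gc n with hadef
  have hn0 : (0 : ℝ) < n := by exact_mod_cast (by omega : 0 < n)
  refine ⟨(a / 2) ^ n, by positivity, a ^ (2 * n) / (2 ^ n * n * 3 ^ (n + 1) * 2 ^ (n - 1)),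
    by positivity, ?_⟩
  intro M hM x hx
  obtain ⟨y, hy⟩ := hM.compl.1
  obtain ⟨D, hD⟩ : ∃ D : ℕ, ∀ i, |y i - x i| ≤ D := by
    refine ⟨∑ i, (|y i - x i|).toNat, fun i => ?_⟩
    have h1 : (|y i - x i|).toNat ≤ ∑ i, (|y i - x i|).toNat :=
      Finset.single_le_sum (f := fun i => (|y i - x i|).toNat) (fun _ _ => Nat.zero_le _)
        (Finset.mem_univ i)
    have h2 := Int.self_le_toNat |y i - x i|
    calc |y i - x i| ≤ ((|y i - x i|).toNat : ℤ) := h2
      _ ≤ _ := by exact_mod_cast h1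
  refine ⟨2 * D + 2, fun r hr => ?_⟩
  have hD0 : (0 : ℝ) ≤ D := Nat.cast_nonneg D
  have hr0 : 0 ≤ r := by linarith
  rw [inter_box M x hr0, inter_box _ x hr0]
  set R := ⌊r⌋₊ with hR
  have hRr : r / 2 ≤ R := by
    have := Nat.lt_floor_add_one r
    rw [← hR] at this
    linarith
  have hRr' : r - 1 < R := by
    have := Nat.lt_floor_add_one r
    rw [← hR] at this
    linarith
  have hR2D : 2 * D ≤ R := by
    have : ((2 * D : ℕ) : ℝ) < R + 1 := by push_cast; linarith
    have : 2 * D < R + 1 := by exact_mod_cast this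
    omega
  have hR1 : 1 ≤ R := by
    have : (1 : ℝ) ≤ R := by linarith
    exact_mod_cast this
  have hR1' : (1 : ℝ) ≤ R := by exact_mod_cast hR1
  have v1 := volume hn hM hx R
  rw [← hadef] at v1
  have w1 : (a * R) ^ n ≤ ((trace M x R).card : ℝ) := by
    refine le_trans ?_ v1
    apply pow_le_pow_left₀ (by positivity)
    linarith
  constructor
  · refine le_trans ?_ w1
    rw [← mul_pow]
    apply pow_le_pow_left₀ (by positivity)
    calc a / 2 * r = a * (r / 2) := by ring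
      _ ≤ a * R := by gcongr
  · have v2 := volume hn hM.compl hy (R - D)
    rw [← hadef] at v2
    have hsub : trace Mᶜ y (R - D) ⊆ trace Mᶜ x R := by
      intro z hz
      rw [mem_trace, mem_ibox] at *
      refine ⟨fun i => ?_, hz.2⟩
      have h1 := hz.1 i
      have h2 := abs_le.1 (hD i)
      have h3 : ((R - D : ℕ) : ℤ) = R - D := by rw [Nat.cast_sub (by omega)]
      rw [h3] at h1
      constructor <;> omega
    have w2 : (a * R / 2) ^ n ≤ ((trace Mᶜ x R).card : ℝ) := by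
      have h4 : ((trace Mᶜ y (R - D)).card : ℝ) ≤ (trace Mᶜ x R).card := by
        exact_mod_cast Finset.card_le_card hsub
      refine le_trans ?_ (v2.trans h4)
      apply pow_le_pow_left₀ (by positivity)
      have h5 : (R : ℝ) / 2 ≤ ((R - D : ℕ) : ℝ) := by
        rw [Nat.cast_sub (by omega)]
        have : (2 : ℝ) * D ≤ R := by exact_mod_cast hR2D
        linarith
      calc a * R / 2 = a * (R / 2) := by ring
        _ ≤ a * ((R - D : ℕ) : ℝ) := by gcongr
        _ ≤ _ := by linarith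
    have hrel : ((trace M x R).card : ℝ) * (trace Mᶜ x R).card ≤
        n * (trace (vertexBoundary M) x R).card * (2 * R + 1) ^ (n + 1) := by
      exact_mod_cast relative hn M x R
    have hprod : (a * R) ^ n * (a * R / 2) ^ n ≤
        n * (trace (vertexBoundary M) x R).card * (2 * R + 1) ^ (n + 1) :=
      (mul_le_mul w1 w2 (by positivity) (by positivity)).trans hrel
    set δ : ℝ := ((trace (vertexBoundary M) x R).card : ℝ) with hδ
    have hδ0 : 0 ≤ δ := Nat.cast_nonneg _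
    have hb : (2 * (R : ℝ) + 1) ^ (n + 1) ≤ (3 * R) ^ (n + 1) :=
      pow_le_pow_left₀ (by positivity) (by linarith) _
    have h6 : (a * R) ^ n * (a * R / 2) ^ n ≤ n * δ * (3 * R) ^ (n + 1) :=
      hprod.trans (by gcongr)
    obtain ⟨m, rfl⟩ : ∃ m, n = m + 1 := ⟨n - 1, by omega⟩
    rw [Nat.add_sub_cancel]
    have hRpos : (0 : ℝ) < R := by linarith
    have h7 : a ^ (2 * (m + 1)) * (R : ℝ) ^ m ≤ 2 ^ (m + 1) * ((m + 1 : ℕ) : ℝ) * 3 ^ (m + 1 + 1) * δ := by
      have h8 : (a * R) ^ (m + 1) * (a * R / 2) ^ (m + 1) =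
          a ^ (2 * (m + 1)) * (R : ℝ) ^ m * R ^ (m + 1 + 1) / 2 ^ (m + 1) := by
        rw [div_pow, mul_pow]
        field_simp
        ring
      have h9 : ((m + 1 : ℕ) : ℝ) * δ * (3 * R) ^ (m + 1 + 1) =
          (((m + 1 : ℕ) : ℝ) * 3 ^ (m + 1 + 1) * δ) * R ^ (m + 1 + 1) := by
        rw [mul_pow]; ring
      rw [h8, h9] at h6
      have h10 : a ^ (2 * (m + 1)) * (R : ℝ) ^ m * R ^ (m + 1 + 1) ≤
          (2 ^ (m + 1) * ((m + 1 : ℕ) : ℝ) * 3 ^ (m + 1 + 1) * δ) * R ^ (m + 1 + 1) := by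
        rw [div_le_iff₀ (by positivity)] at h6
        refine h6.trans (le_of_eq ?_)
        ring
      exact le_of_mul_le_mul_right h10 (by positivity)
    have h11 : (r / 2) ^ m ≤ (R : ℝ) ^ m := pow_le_pow_left₀ (by positivity) hRr m
    have h12 : a ^ (2 * (m + 1)) * (r / 2) ^ m ≤
        2 ^ (m + 1) * ((m + 1 : ℕ) : ℝ) * 3 ^ (m + 1 + 1) * δ :=
      le_trans (by gcongr) h7
    rw [div_mul_eq_mul_div, div_le_iff₀ (by positivity)]
    rw [div_pow, mul_div_assoc', div_le_iff₀ (by positivity)] at h12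
    refine h12.trans (le_of_eq ?_)
    ring

end Pool.Agent.Results.MP_f12303_co.DensityBounds
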